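import Mathlib

open MeasureTheory Set

namespace Pool.Agent.H75

/-- Integration by parts for two primitives. -/
theorem parts {u v : ℝ → ℝ} {t : ℝ} (hu : IntervalIntegrable u volume 0 t)
    (hv : IntervalIntegrable v volume 0 t) :
    ∫ x in (0:ℝ)..t, (u x * (∫ y in (0:ℝ)..x, v y) + (∫ y in (0:ℝ)..x, u y) * v x) =
      (∫ y in (0:ℝ)..t, u y) * (∫ y in (0:ℝ)..t, v y) := by
  have hU := hu.absolutelyContinuousOnInterval_intervalIntegral (c := 0) (by simp)
  have hV := hv.absolutelyContinuousOnInterval_intervalIntegral (c := 0) (by simp)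
  have h := hU.integral_deriv_mul_eq_sub hV
  rw [intervalIntegral.integral_same, zero_mul, sub_zero] at h
  rw [← h]
  apply intervalIntegral.integral_congr_ae
  filter_upwards [hu.ae_hasDerivAt_integral, hv.ae_hasDerivAt_integral] with x hx hx' hxm
  have hxm' : x ∈ uIcc 0 t := uIoc_subset_uIcc hxm
  rw [(hx hxm' 0 (by simp)).deriv, (hx' hxm' 0 (by simp)).deriv]

/-- The open-ended simplex `0 ≤ x₁ < ... < x_m < t`. -/
def simplex (m : ℕ) (t : ℝ) : Set (Fin m → ℝ) :=
  {x | StrictMono x ∧ ∀ i, x i ∈ Ico (0:ℝ) t}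

theorem measurableSet_strictMono (m : ℕ) : MeasurableSet {x : Fin m → ℝ | StrictMono x} := by
  have : {x : Fin m → ℝ | StrictMono x} =
      ⋂ i : Fin m, ⋂ j : Fin m, ⋂ (_ : i < j), {x : Fin m → ℝ | x i < x j} := by
    ext x
    simp only [mem_ofPred_eq, mem_iInter]
    rfl
  rw [this]
  refine MeasurableSet.iInter fun i => MeasurableSet.iInter fun j => MeasurableSet.iInter fun _ => ?_
  exact measurableSet_lt (measurable_pi_apply i) (measurable_pi_apply j)

theorem measurableSet_simplex (m : ℕ) (t : ℝ) : MeasurableSet (simplex m t) := by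
  have : simplex m t = {x : Fin m → ℝ | StrictMono x} ∩
      (Set.pi univ fun _ => Ico (0:ℝ) t) := by
    ext x
    simp [simplex, Set.mem_pi]
  rw [this]
  exact (measurableSet_strictMono m).inter
    (MeasurableSet.univ_pi fun _ => measurableSet_Ico)

theorem snoc_mem_simplex {m : ℕ} {t : ℝ} (x : Fin m → ℝ) (y : ℝ) :
    (Fin.snoc x y : Fin (m + 1) → ℝ) ∈ simplex (m + 1) t ↔ y ∈ Ico 0 t ∧ x ∈ simplex m y := by
  constructor
  · rintro ⟨h1, h2⟩
    have hy := h2 (Fin.last m)
    rw [Fin.snoc_last] at hy
    refine ⟨hy, ?_, ?_⟩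
    · intro i j hij
      have := h1 (show i.castSucc < j.castSucc from by simpa using hij)
      rwa [Fin.snoc_castSucc, Fin.snoc_castSucc] at this
    · intro i
      have h3 := h2 i.castSucc
      have h4 := h1 (Fin.castSucc_lt_last i)
      rw [Fin.snoc_castSucc] at h3 h4
      rw [Fin.snoc_last] at h4
      exact ⟨h3.1, h4⟩
  · rintro ⟨hy, h1, h2⟩
    refine ⟨?_, ?_⟩
    · intro i j hij
      induction j using Fin.lastCases with
      | last =>
        induction i using Fin.lastCases with
        | last => exact absurd hij (lt_irrefl _)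
        | cast i =>
          rw [Fin.snoc_castSucc, Fin.snoc_last]
          exact (h2 i).2
      | cast j =>
        induction i using Fin.lastCases with
        | last => exact absurd hij (not_lt.2 (Fin.castSucc_lt_last j).le)
        | cast i =>
          rw [Fin.snoc_castSucc, Fin.snoc_castSucc]
          exact h1 (by simpa using hij)
    · intro i
      induction i using Fin.lastCases with
      | last => rw [Fin.snoc_last]; exact hy
      | cast i =>
        rw [Fin.snoc_castSucc]
        exact ⟨(h2 i).1, (h2 i).2.trans hy.2⟩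

theorem integrableOn_prod {m : ℕ} (G : Fin m → ℝ → ℝ) (hG : ∀ i, Measurable (G i))
    (h01 : ∀ i x, G i x ∈ Icc (0:ℝ) 1) (t : ℝ) :
    IntegrableOn (fun x : Fin m → ℝ => ∏ i, G i (x i)) (simplex m t) := by
  have hfin : volume (simplex m t) < ⊤ := by
    refine lt_of_le_of_lt (measure_mono (t := Set.pi univ fun _ => Ico (0:ℝ) t) ?_) ?_
    · intro x hx
      rw [Set.mem_pi]
      intro i _
      exact hx.2 i
    · rw [Real.volume_pi_Ico]
      exact ENNReal.prod_lt_top fun i _ => ENNReal.ofReal_lt_top
  refine Measure.integrableOn_of_bounded (M := 1) hfin.ne ?_ ?_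
  · exact (Finset.measurable_prod _ fun i _ => (hG i).comp (measurable_pi_apply i)).aestronglyMeasurable
  · refine Filter.Eventually.of_forall fun x => ?_
    rw [Real.norm_eq_abs, abs_of_nonneg (Finset.prod_nonneg fun i _ => (h01 i _).1)]
    exact Finset.prod_le_one (fun i _ => (h01 i _).1) (fun i _ => (h01 i _).2)

theorem simplex_step {m : ℕ} (G : Fin (m + 1) → ℝ → ℝ) (hG : ∀ i, Measurable (G i))
    (h01 : ∀ i x, G i x ∈ Icc (0:ℝ) 1) {t : ℝ} (ht : 0 ≤ t) :
    ∫ x in simplex (m + 1) t, ∏ i, G i (x i) =
      ∫ y in (0:ℝ)..t, G (Fin.last m) y * ∫ x in simplex m y, ∏ i, G i.castSucc (x i) := by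
  let e := MeasurableEquiv.piFinSuccAbove (fun _ : Fin (m + 1) => ℝ) (Fin.last m)
  have hmp : MeasurePreserving e := volume_preserving_piFinSuccAbove (fun _ => ℝ) (Fin.last m)
  let Φ : (Fin (m + 1) → ℝ) → ℝ := (simplex (m + 1) t).indicator (fun x => ∏ i, G i (x i))
  have hint : Integrable Φ :=
    (integrable_indicator_iff (measurableSet_simplex _ _)).2 (integrableOn_prod G hG h01 t)
  have h1 : ∫ x in simplex (m + 1) t, ∏ i, G i (x i) = ∫ x, Φ x :=
    (integral_indicator (measurableSet_simplex _ _)).symm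
  have h2 : ∫ x, Φ x = ∫ z, Φ (e.symm z) := by
    rw [← hmp.symm.integral_comp' (g := Φ)]
  have hint2 : Integrable (fun z => Φ (e.symm z)) := by
    exact (hmp.symm.integrable_comp_emb e.symm.measurableEmbedding).2 hint
  have h3 : ∫ z, Φ (e.symm z) = ∫ y, ∫ x, Φ (e.symm (y, x)) := by
    rw [Measure.volume_eq_prod] at hint2 ⊢
    exact integral_prod _ hint2
  have h4 : ∀ y x, Φ (e.symm (y, x)) = (Ico 0 t).indicator
      (fun y => G (Fin.last m) y * (simplex m y).indicator
        (fun x => ∏ i, G i.castSucc (x i)) x) y := by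
    intro y x
    have he : e.symm (y, x) = Fin.snoc x y := by
      have h5 : e.symm (y, x) = (Fin.last m).insertNth (α := fun _ => ℝ) y x := rfl
      rw [h5, Fin.insertNth_last']
    rw [he]
    by_cases hy : y ∈ Ico 0 t
    · rw [indicator_of_mem hy]
      by_cases hx : x ∈ simplex m y
      · rw [indicator_of_mem hx]
        show (simplex (m + 1) t).indicator (fun x => ∏ i, G i (x i)) _ = _
        rw [indicator_of_mem ((snoc_mem_simplex x y).2 ⟨hy, hx⟩), Fin.prod_univ_castSucc]
        simp only [Fin.snoc_castSucc, Fin.snoc_last]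
        ring
      · rw [indicator_of_notMem hx, mul_zero]
        apply indicator_of_notMem
        rw [snoc_mem_simplex]
        exact fun h => hx h.2
    · rw [indicator_of_notMem hy]
      apply indicator_of_notMem
      rw [snoc_mem_simplex]
      exact fun h => hy h.1
  rw [h1, h2, h3, intervalIntegral.integral_of_le ht, ← integral_Ico_eq_integral_Ioc,
    ← integral_indicator measurableSet_Ico]
  congr 1
  ext y
  simp only [h4]
  by_cases hy : y ∈ Ico 0 t
  · simp only [indicator_of_mem hy]
    rw [integral_const_mul, integral_indicator (measurableSet_simplex _ _)]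
  · simp only [indicator_of_notMem hy, integral_zero]

end Pool.Agent.H75
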