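import Mathlib

open MeasureTheory Set

namespace Pool.Agent.H75

/-- Change of variables for the primitive of a bounded measurable function which is bounded below
by a positive constant. -/
theorem reparam {xd : ℝ → ℝ} (hm : Measurable xd) {c C : ℝ} (hc : 0 < c) (hlow : ∀ s, c ≤ xd s)
    (hup : ∀ s, xd s ≤ C) : ∃ Y : ℝ → ℝ, Measurable Y ∧ (∀ s, Y (∫ x in (0:ℝ)..s, xd x) = s) ∧
      ∀ φ : ℝ → ℝ, Measurable φ → ∀ s, 0 ≤ s →
        ∫ u in (0:ℝ)..(∫ x in (0:ℝ)..s, xd x), φ u =
          ∫ r in (0:ℝ)..s, φ (∫ x in (0:ℝ)..r, xd x) * xd r := by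
  have hint : ∀ a b, IntervalIntegrable xd volume a b := by
    intro a b
    rw [intervalIntegrable_iff]
    refine Measure.integrableOn_of_bounded (M := C) ?_ hm.aestronglyMeasurable ?_
    · rw [uIoc, Real.volume_Ioc]; exact ENNReal.ofReal_ne_top
    · refine Filter.Eventually.of_forall fun x => ?_
      rw [Real.norm_eq_abs, abs_of_nonneg (hc.le.trans (hlow x))]
      exact hup x
  let X : ℝ → ℝ := fun s => ∫ x in (0:ℝ)..s, xd x
  have hXsub : ∀ a b, X b - X a = ∫ x in a..b, xd x := by
    intro a b
    exact intervalIntegral.integral_interval_sub_left (hint 0 b) (hint 0 a)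
  have hXlow : ∀ a b, a ≤ b → c * (b - a) ≤ X b - X a := by
    intro a b hab
    rw [hXsub]
    have h1 : ∫ x in a..b, c = c * (b - a) := by
      rw [intervalIntegral.integral_const]; simp [mul_comm]
    rw [← h1]
    exact intervalIntegral.integral_mono_on hab (by simp) (hint a b) (fun x _ => hlow x)
  have hmono : StrictMono X := by
    intro a b hab
    have := hXlow a b hab.le
    have h2 : 0 < c * (b - a) := mul_pos hc (sub_pos.2 hab)
    linarith
  have hX0 : X 0 = 0 := intervalIntegral.integral_same
  have hcont : Continuous X := intervalIntegral.continuous_primitive hint 0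
  have hsurj : Function.Surjective X := by
    apply hcont.surjective
    · refine Filter.tendsto_atTop_mono' _ ?_ (Filter.tendsto_id.const_mul_atTop hc)
      filter_upwards [Filter.eventually_ge_atTop 0] with s hs
      have := hXlow 0 s hs
      rw [hX0] at this
      simpa using this
    · refine Filter.tendsto_atBot_mono' _ ?_ (Filter.tendsto_id.const_mul_atBot hc)
      filter_upwards [Filter.eventually_le_atBot 0] with s hs
      have := hXlow s 0 hs
      rw [hX0] at this
      simp only [id]
      linarith
  let Xo : ℝ ≃o ℝ := StrictMono.orderIsoOfSurjective X hmono hsurj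
  have hXo : ∀ s, Xo s = X s := fun s => rfl
  let Y : ℝ → ℝ := Xo.symm
  have hYX : ∀ s, Y (X s) = s := fun s => Xo.symm_apply_apply s
  have hXY : ∀ s, X (Y s) = s := fun s => Xo.apply_symm_apply s
  have hYm : Measurable Y := Xo.symm.monotone.measurable
  have hXm : Measurable X := hcont.measurable
  let ν : Measure ℝ := volume.withDensity (fun s => ENNReal.ofReal (xd s))
  have hmap : Measure.map X ν = volume := by
    symm
    apply Real.measure_ext_Ioo_rat
    intro a b
    rw [Measure.map_apply hXm measurableSet_Ioo]
    have hpre : X ⁻¹' Ioo (a:ℝ) b = Ioo (Y a) (Y b) := by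
      ext s
      simp only [mem_preimage, mem_Ioo]
      constructor
      · rintro ⟨h1, h2⟩
        constructor
        · rw [← hXY a] at h1
          exact hmono.lt_iff_lt.1 h1
        · rw [← hXY b] at h2
          exact hmono.lt_iff_lt.1 h2
      · rintro ⟨h1, h2⟩
        constructor
        · have := hmono h1
          rwa [hXY] at this
        · have := hmono h2
          rwa [hXY] at this
    rw [hpre]
    show volume (Ioo (a:ℝ) b) = (volume.withDensity (fun s => ENNReal.ofReal (xd s))) _
    rw [withDensity_apply _ measurableSet_Ioo, Real.volume_Ioo]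
    rcases le_total (Y a) (Y b) with hab | hab
    · rw [← ofReal_integral_eq_lintegral_ofReal]
      · congr 1
        rw [← integral_Ioc_eq_integral_Ioo, ← intervalIntegral.integral_of_le hab, ← hXsub, hXY,
          hXY]
      · have := (hint (Y a) (Y b)).1
        exact this.mono_set Ioo_subset_Ioc_self
      · exact Filter.Eventually.of_forall fun x => hc.le.trans (hlow x)
    · rw [Ioo_eq_empty (not_lt.2 hab)]
      have : (b:ℝ) ≤ a := by
        have := hmono.monotone hab
        rwa [hXY, hXY] at this
      simp [this]
  refine ⟨Y, hYm, hYX, ?_⟩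
  intro φ hφ s hs
  have hXs : 0 ≤ X s := by
    rw [← hX0]; exact hmono.monotone hs
  show ∫ u in (0:ℝ)..(X s), φ u = ∫ r in (0:ℝ)..s, φ (X r) * xd r
  rw [intervalIntegral.integral_of_le hXs, intervalIntegral.integral_of_le hs,
    ← integral_indicator measurableSet_Ioc, ← integral_indicator measurableSet_Ioc]
  have h1 : ∫ u, (Ioc 0 (X s)).indicator φ u = ∫ r, (Ioc 0 (X s)).indicator φ (X r) ∂ν := by
    rw [← integral_map hXm.aemeasurable, hmap]
    rw [hmap]
    exact (hφ.indicator measurableSet_Ioc).aestronglyMeasurable
  rw [h1, integral_withDensity_eq_integral_toReal_smul (hm.ennreal_ofReal)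
    (Filter.Eventually.of_forall fun x => ENNReal.ofReal_lt_top)]
  congr 1
  ext r
  rw [ENNReal.toReal_ofReal (hc.le.trans (hlow r)), smul_eq_mul]
  by_cases hr : r ∈ Ioc 0 s
  · have : X r ∈ Ioc 0 (X s) := by
      refine ⟨?_, hmono.monotone hr.2⟩
      rw [← hX0]; exact hmono hr.1
    rw [indicator_of_mem hr, indicator_of_mem this, mul_comm]
  · have : X r ∉ Ioc 0 (X s) := by
      intro h
      apply hr
      constructor
      · have h2 := h.1
        rw [← hX0] at h2
        exact hmono.lt_iff_lt.1 h2
      · exact hmono.le_iff_le.1 h.2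
    rw [indicator_of_notMem hr, indicator_of_notMem this, mul_zero]

end Pool.Agent.H75
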