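import Mathlib

/-!
Continuous logarithms and non-separation of the 2-sphere.
If `C` is a closed subset of the 2-sphere on which every nowhere vanishing continuous complex
function has a continuous logarithm, then `C` does not separate the sphere.
-/

open Set Topology

namespace Pool.Agent.H75

/-- Every nowhere-zero continuous complex function on `Y` has a continuous logarithm. -/
def HasLogs (Y : Type*) [TopologicalSpace Y] : Prop :=
  ∀ f : C(Y, ℂ), (∀ y, f y ≠ 0) → ∃ g : C(Y, ℂ), ∀ y, Complex.exp (g y) = f y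

theorem hasLogs_of_contractible (Y : Type*) [TopologicalSpace Y] [ContractibleSpace Y] :
    HasLogs Y := by
  intro f hf
  obtain ⟨y0, ⟨F⟩⟩ := id_nullhomotopic Y
  let f' : C(Y, {z : ℂ // z ≠ 0}) := ⟨fun y => ⟨f y, hf y⟩, by fun_prop⟩
  let G : C(unitInterval × Y, {z : ℂ // z ≠ 0}) := f'.comp (F.symm.toContinuousMap)
  let c : C(Y, ℂ) := ContinuousMap.const Y (Complex.log (f y0))
  have H0 : ∀ y, G (0, y) = (fun z : ℂ ↦ (⟨_, z.exp_ne_zero⟩ : {z : ℂ // z ≠ 0})) (c y) := by
    intro y
    have h1 : G (0, y) = f' y0 := by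
      show f' (F.symm (0, y)) = f' y0
      rw [F.symm.apply_zero]
      rfl
    rw [h1]
    apply Subtype.ext
    show f y0 = Complex.exp (Complex.log (f y0))
    rw [Complex.exp_log (hf y0)]
  let L := Complex.isCoveringMap_exp.liftHomotopy G c H0
  refine ⟨⟨fun y => L (1, y), by fun_prop⟩, fun y => ?_⟩
  have h2 := congrFun (Complex.isCoveringMap_exp.liftHomotopy_lifts G c H0) (1, y)
  have h3 : G (1, y) = f' y := by
    show f' (F.symm (1, y)) = f' y
    rw [F.symm.apply_one]
    rfl
  rw [h3] at h2
  have h4 := congrArg Subtype.val h2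
  exact h4

theorem hasLogs_of_subsingleton (Y : Type*) [TopologicalSpace Y] [Subsingleton Y] :
    HasLogs Y := by
  intro f hf
  exact ⟨⟨fun y => Complex.log (f y), continuous_of_discreteTopology⟩,
    fun y => Complex.exp_log (hf y)⟩

/-- The existence of logarithms passes to retracts. -/
theorem HasLogs.of_retract {Y Z : Type*} [TopologicalSpace Y] [TopologicalSpace Z]
    (hZ : HasLogs Z) (a : C(Y, Z)) (b : C(Z, Y)) (hba : ∀ y, b (a y) = y) : HasLogs Y := by
  intro f hf
  obtain ⟨g, hg⟩ := hZ (f.comp b) (fun z => hf _)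
  refine ⟨g.comp a, fun y => ?_⟩
  show Complex.exp (g (a y)) = f y
  rw [hg]
  show f (b (a y)) = f y
  rw [hba]

/-- Finite disjoint unions of closed sets with logarithms have logarithms. -/
theorem hasLogs_iUnion {X : Type*} [TopologicalSpace X] {ι : Type*} [Finite ι] (S : ι → Set X)
    (hcl : ∀ i, IsClosed (S i)) (hdis : ∀ i j, i ≠ j → Disjoint (S i) (S j))
    (hlog : ∀ i, HasLogs (S i)) : HasLogs (↥(⋃ i, S i)) := by
  intro f hf
  have hsub : ∀ i, S i ⊆ ⋃ i, S i := fun i => subset_iUnion S i
  have hex : ∀ i, ∃ g : C(S i, ℂ), ∀ y, Complex.exp (g y) = f (inclusion (hsub i) y) := by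
    intro i
    exact hlog i (f.comp ⟨inclusion (hsub i), continuous_inclusion (hsub i)⟩)
      (fun y => hf _)
  choose g hg using hex
  have hmem : ∀ x : ↥(⋃ i, S i), ∃ i, x.1 ∈ S i := fun x => mem_iUnion.1 x.2
  choose idx hidx using hmem
  have hidx_eq : ∀ (x : ↥(⋃ i, S i)) (i : ι), x.1 ∈ S i → idx x = i := by
    intro x i hi
    by_contra hne
    exact (Set.disjoint_left.1 (hdis _ _ hne)) (hidx x) hi
  let G : ↥(⋃ i, S i) → ℂ := fun x => g (idx x) ⟨x.1, hidx x⟩
  have hG : ∀ (x : ↥(⋃ i, S i)) (i : ι) (hi : x.1 ∈ S i), G x = g i ⟨x.1, hi⟩ := by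
    intro x i hi
    have := hidx_eq x i hi
    subst this
    rfl
  have hcont : Continuous G := by
    let T : ι → Set ↥(⋃ i, S i) := fun i => Subtype.val ⁻¹' (S i)
    refine LocallyFinite.continuous (f := T) (locallyFinite_of_finite T) ?_ ?_ ?_
    · rw [eq_univ_iff_forall]
      intro x
      exact mem_iUnion.2 ⟨idx x, hidx x⟩
    · intro i
      exact (hcl i).preimage continuous_subtype_val
    · intro i
      rw [continuousOn_iff_continuous_domRestrict]
      have : (T i).domRestrict G = fun x => g i ⟨x.1.1, x.2⟩ := by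
        ext x
        exact hG x.1 i x.2
      rw [this]
      fun_prop
  refine ⟨⟨G, hcont⟩, fun x => ?_⟩
  show Complex.exp (G x) = f x
  rw [hG x (idx x) (hidx x), hg]

/-- There is no nowhere-zero continuous function on the plane which equals `z - w` outside a
bounded set. -/
theorem no_extension (h : ℂ → ℂ) (hc : Continuous h) (h0 : ∀ z, h z ≠ 0) (w : ℂ) (R : ℝ)
    (hR : 0 < R) (hw : ∀ z, dist z w = R → h z = z - w) : False := by
  obtain ⟨L, hL⟩ := hasLogs_of_contractible ℂ ⟨h, hc⟩ h0
  -- the function `θ ↦ L (w + R e^{iθ}) - iθ` has constant exponential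
  let u : ℝ → ℂ := fun θ => L (w + R * Complex.exp (θ * Complex.I)) - θ * Complex.I
  have hu : Continuous u := by fun_prop
  have hexp : ∀ θ, Complex.exp (u θ) = R := by
    intro θ
    have h1 : Complex.exp (L (w + R * Complex.exp (θ * Complex.I)))
        = R * Complex.exp (θ * Complex.I) := by
      rw [hL]
      show h (w + R * Complex.exp (θ * Complex.I)) = _
      rw [hw]
      · ring
      · rw [dist_eq_norm]
        simp [Complex.norm_exp_ofReal_mul_I, abs_of_pos hR]
    show Complex.exp (L _ - θ * Complex.I) = R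
    rw [Complex.exp_sub, h1]
    field_simp
  have hconst : u 0 = u (2 * Real.pi) := by
    refine Complex.isCoveringMap_exp.const_of_comp hu ?_ 0 (2 * Real.pi)
    intro a a'
    apply Subtype.ext
    show Complex.exp (u a) = Complex.exp (u a')
    rw [hexp, hexp]
  have h2 : Complex.exp ((2 * Real.pi : ℝ) * Complex.I) = 1 := by
    push_cast
    exact Complex.exp_two_pi_mul_I
  have h3 : u (2 * Real.pi) = L (w + R) - (2 * Real.pi : ℝ) * Complex.I := by
    show L _ - _ = _
    rw [h2, mul_one]
  have h4 : u 0 = L (w + R) := by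
    show L _ - _ = _
    simp
  rw [h3, h4] at hconst
  have h5 : ((2 * Real.pi : ℝ) : ℂ) * Complex.I = 0 := by
    linear_combination hconst
  have h6 : (2 * Real.pi : ℝ) ≠ 0 := by positivity
  have h7 : ((2 * Real.pi : ℝ) : ℂ) ≠ 0 := by exact_mod_cast h6
  exact (mul_ne_zero h7 Complex.I_ne_zero) h5

/-- **Non-separation criterion.** If a closed subset `C` of a topological 2-sphere `X` has
continuous logarithms, then `X` cannot be the union of two closed sets `A`, `B` with
`A ∩ B ⊆ C`, unless one of them is contained in `C`. -/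
theorem sphere_not_separated {X : Type*} [TopologicalSpace X]
    (φ : X ≃ₜ Metric.sphere (0 : EuclideanSpace ℝ (Fin 3)) 1) (A B C : Set X)
    (hA : IsClosed A) (hB : IsClosed B) (hC : IsClosed C) (hAB : A ∪ B = univ)
    (hABC : A ∩ B ⊆ C) (hlog : HasLogs C) : A ⊆ C ∨ B ⊆ C := by
  by_contra hcon
  push Not at hcon
  obtain ⟨hAC, hBC⟩ := hcon
  obtain ⟨a, haA, haC⟩ := Set.not_subset.1 hAC
  obtain ⟨b, hbB, hbC⟩ := Set.not_subset.1 hBC
  have haB : a ∉ B := fun h => haC (hABC ⟨haA, h⟩)
  have hbA : b ∉ A := fun h => hbC (hABC ⟨h, hbB⟩)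
  have : CompactSpace X := φ.symm.compactSpace
  have : T2Space X := φ.isEmbedding.t2Space
  have : Fact (Module.finrank ℝ (EuclideanSpace ℝ (Fin 3)) = 2 + 1) := ⟨by simp⟩
  let e := stereographic' 2 (φ a)
  let r : ℂ ≃ₗᵢ[ℝ] EuclideanSpace ℝ (Fin 2) := Complex.orthonormalBasisOneI.repr
  -- plane coordinates on `X` minus `a`
  let q : X → ℂ := fun x => r.symm (e (φ x))
  let P : ℂ → X := fun z => φ.symm (e.symm (r z))
  have hPc : Continuous P := by
    have h1 : Continuous (fun x => e.symm x) := by
      have := e.continuousOn_symm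
      rw [stereographic'_target] at this
      exact continuousOn_univ.1 this
    exact φ.symm.continuous.comp (h1.comp r.continuous)
  have hqc : ContinuousOn q {a}ᶜ := by
    have h1 : ContinuousOn e {φ a}ᶜ := by
      have := e.continuousOn
      rwa [stereographic'_source] at this
    have h2 : MapsTo φ {a}ᶜ {φ a}ᶜ := by
      intro x hx h
      exact hx (φ.injective h)
    exact r.symm.continuous.comp_continuousOn (h1.comp φ.continuous.continuousOn h2)
  have hPq : ∀ x, x ≠ a → P (q x) = x := by
    intro x hx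
    show φ.symm (e.symm (r (r.symm (e (φ x))))) = x
    rw [r.apply_symm_apply, e.left_inv, φ.symm_apply_apply]
    rw [stereographic'_source]
    exact fun h => hx (φ.injective h)
  have hqP : ∀ z, q (P z) = z := by
    intro z
    show r.symm (e (φ (φ.symm (e.symm (r z))))) = z
    rw [φ.apply_symm_apply, e.right_inv, r.symm_apply_apply]
    rw [stereographic'_target]
    trivial
  -- the function `q x - q b` on `C` has a logarithm
  have hCa : ∀ x ∈ C, x ≠ a := fun x hx h => haC (h ▸ hx)
  have hba : b ≠ a := fun h => haB (h ▸ hbB)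
  have hqcC : Continuous (fun x : C => q x.1) := by
    have := hqc.mono (s := {a}ᶜ) (t := C) (fun x hx => hCa x hx)
    exact continuousOn_iff_continuous_domRestrict.1 this
  obtain ⟨g, hg⟩ := hlog ⟨fun x : C => q x.1 - q b, hqcC.sub continuous_const⟩ (by
    intro x hx
    have h1 : q x.1 = q b := sub_eq_zero.1 hx
    have h2 : x.1 = b := by
      rw [← hPq x.1 (hCa _ x.2), h1, hPq b hba]
    exact hbC (h2 ▸ x.2))
  obtain ⟨G, hG⟩ := g.exists_extension (hC.isClosedEmbedding_subtypeVal)
  have hG' : ∀ x (hx : x ∈ C), Complex.exp (G x) = q x - q b := by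
    intro x hx
    have h1 := congrFun (congrArg DFunLike.coe hG) ⟨x, hx⟩
    have h2 : G x = g ⟨x, hx⟩ := h1
    rw [h2, hg]
    rfl
  classical
  let h : ℂ → ℂ := fun z => if P z ∈ B then Complex.exp (G (P z)) else z - q b
  have hcont : Continuous h := by
    have h1 : ContinuousOn h (P ⁻¹' B) := by
      have : ContinuousOn (fun z => Complex.exp (G (P z))) (P ⁻¹' B) := by
        apply Continuous.continuousOn
        exact Complex.continuous_exp.comp (G.continuous.comp hPc)
      refine this.congr ?_
      intro z hz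
      exact if_pos hz
    have h2 : ContinuousOn h (P ⁻¹' A) := by
      have : ContinuousOn (fun z => z - q b) (P ⁻¹' A) := by
        apply Continuous.continuousOn
        fun_prop
      refine this.congr ?_
      intro z hz
      by_cases hzB : P z ∈ B
      · show (if P z ∈ B then Complex.exp (G (P z)) else z - q b) = z - q b
        rw [if_pos hzB, hG' _ (hABC ⟨hz, hzB⟩), hqP]
      · exact if_neg hzB
    have h3 := h2.union_of_isClosed h1 (hA.preimage hPc) (hB.preimage hPc)
    rw [← preimage_union, hAB, preimage_univ] at h3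
    exact continuousOn_univ.1 h3
  have hne : ∀ z, h z ≠ 0 := by
    intro z
    by_cases hzB : P z ∈ B
    · show (if P z ∈ B then Complex.exp (G (P z)) else z - q b) ≠ 0
      rw [if_pos hzB]
      exact Complex.exp_ne_zero _
    · show (if P z ∈ B then Complex.exp (G (P z)) else z - q b) ≠ 0
      rw [if_neg hzB]
      intro h0
      apply hzB
      rw [sub_eq_zero.1 h0, hPq b hba]
      exact hbB
  -- the image of `B` is bounded
  have hcomp : IsCompact (q '' B) := by
    apply (hB.isCompact).image_of_continuousOn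
    exact hqc.mono (fun x hx h => haB (h ▸ hx))
  obtain ⟨R, hR⟩ := hcomp.isBounded.subset_ball (q b)
  have hRpos : 0 < R := by
    have h1 := hR ⟨b, hbB, rfl⟩
    rw [Metric.mem_ball, dist_self] at h1
    exact h1
  refine no_extension h hcont hne (q b) R hRpos ?_
  intro z hz
  show (if P z ∈ B then Complex.exp (G (P z)) else z - q b) = z - q b
  rw [if_neg]
  intro hzB
  have h1 := hR ⟨P z, hzB, rfl⟩
  rw [hqP, Metric.mem_ball, hz] at h1
  exact lt_irrefl _ h1

end Pool.Agent.H75
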